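import Mathlib

/-!
# Nodal domains of eigenfunctions of a nonnegative symmetric kernel: ground state transform

`X` a set with an action of a group `Γ` with finite stabilisers, `A : X → X → ℝ` a nonnegative symmetric
`Γ`-invariant kernel with finite rows.
-/

set_option autoImplicit false

namespace Pool.Agent.Q135.NS

open Finset

variable {X Γ : Type*} [Group Γ] [MulAction Γ X]

/-- hypotheses on the kernel -/
structure Ker (Γ : Type*) {X : Type*} [Group Γ] [MulAction Γ X] (A : X → X → ℝ) : Prop where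
  nonneg : ∀ x y, 0 ≤ A x y
  symm : ∀ x y, A x y = A y x
  fin : ∀ x, {y | A x y ≠ 0}.Finite
  inv : ∀ (γ : Γ) x y, A (γ • x) (γ • y) = A x y
  stab : ∀ x : X, {γ : Γ | γ • x = x}.Finite

/-- hypotheses on the eigenfunction -/
structure Eig (Γ : Type*) {X : Type*} [Group Γ] [MulAction Γ X] (A : X → X → ℝ) (F : X → ℝ) (L : ℝ) :
    Prop where
  inv : ∀ (γ : Γ) x, F (γ • x) = F x
  supp : ∃ S : Finset X, ∀ x, F x ≠ 0 → ∃ γ : Γ, γ • x ∈ S
  eig : ∀ x, ∑ᶠ y, A x y * F y = L * F x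

/-- adjacency inside the positive set -/
def Adj (A : X → X → ℝ) (F : X → ℝ) (x y : X) : Prop := 0 < F x ∧ 0 < F y ∧ 0 < A x y

/-- the nodal domain through `x` -/
def nod (A : X → X → ℝ) (F : X → ℝ) (x : X) : Set X := {y | Relation.ReflTransGen (Adj A F) x y}

/-- balls in the nodal domain -/
def ball (A : X → X → ℝ) (F : X → ℝ) (x : X) : ℕ → Set X
  | 0 => {x}
  | n + 1 => ball A F x n ∪ {y | ∃ z ∈ ball A F x n, Adj A F z y}

variable {A : X → X → ℝ} {F : X → ℝ} {L N : ℝ}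

lemma adj_symm (hA : Ker Γ A) {x y : X} (h : Adj A F x y) : Adj A F y x := by
  refine ⟨h.2.1, h.1, ?_⟩
  rw [hA.symm]; exact h.2.2

lemma rt_symm (hA : Ker Γ A) {x y : X} (h : Relation.ReflTransGen (Adj A F) x y) :
    Relation.ReflTransGen (Adj A F) y x := by
  induction h with
  | refl => exact Relation.ReflTransGen.refl
  | tail _ h2 ih => exact Relation.ReflTransGen.head (adj_symm hA h2) ih

lemma adj_smul (hA : Ker Γ A) (hF : Eig Γ A F L) (γ : Γ) {x y : X} (h : Adj A F x y) :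
    Adj A F (γ • x) (γ • y) := by
  refine ⟨?_, ?_, ?_⟩
  · rw [hF.inv]; exact h.1
  · rw [hF.inv]; exact h.2.1
  · rw [hA.inv]; exact h.2.2

lemma self_mem (x : X) : x ∈ nod A F x := Relation.ReflTransGen.refl

lemma pos_of_mem {x y : X} (hx : 0 < F x) (h : y ∈ nod A F x) : 0 < F y := by
  induction h with
  | refl => exact hx
  | tail _ h2 _ => exact h2.2.1

lemma nod_eq (hA : Ker Γ A) {x y : X} (h : y ∈ nod A F x) : nod A F y = nod A F x := by
  have h' : Relation.ReflTransGen (Adj A F) x y := h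
  have hs : Relation.ReflTransGen (Adj A F) y x := rt_symm hA h'
  ext z
  exact ⟨fun hz => Relation.ReflTransGen.trans h' hz, fun hz => Relation.ReflTransGen.trans hs hz⟩

lemma smul_mem (hA : Ker Γ A) (hF : Eig Γ A F L) (γ : Γ) {x y : X} (h : y ∈ nod A F x) :
    γ • y ∈ nod A F (γ • x) := by
  have h' : Relation.ReflTransGen (Adj A F) x y := h
  clear h
  induction h' with
  | refl => exact self_mem _
  | tail _ h2 ih => exact Relation.ReflTransGen.tail ih (adj_smul hA hF γ h2)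

/-- an element which maps a point of the domain into the domain stabilises it -/
lemma stab_of (hA : Ker Γ A) (hF : Eig Γ A F L) {x0 y : X} {γ : Γ} (h1 : y ∈ nod A F x0)
    (h2 : γ • y ∈ nod A F x0) (z : X) : γ • z ∈ nod A F x0 ↔ z ∈ nod A F x0 := by
  have e1 : nod A F y = nod A F x0 := nod_eq hA h1
  have e2 : nod A F (γ • y) = nod A F x0 := nod_eq hA h2
  constructor
  · intro h
    rw [← e2] at h
    have := smul_mem hA hF γ⁻¹ h
    rw [inv_smul_smul, inv_smul_smul, e1] at this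
    exact this
  · intro h
    rw [← e1] at h
    have := smul_mem hA hF γ h
    rw [e2] at this
    exact this

/-- the stabiliser of the nodal domain -/
def St (Γ : Type*) {X : Type*} [Group Γ] [MulAction Γ X] (D : Set X) : Set Γ :=
  {γ | ∀ z, γ • z ∈ D ↔ z ∈ D}

lemma St_mul {D : Set X} {a b : Γ} (ha : a ∈ St Γ D) (hb : b ∈ St Γ D) : a * b ∈ St Γ D := by
  intro z
  rw [mul_smul, ha, hb]

lemma St_inv {D : Set X} {a : Γ} (ha : a ∈ St Γ D) : a⁻¹ ∈ St Γ D := by
  intro z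
  rw [← ha, smul_inv_smul]

/-- finitely many representatives -/
lemma exists_reps (hA : Ker Γ A) (hF : Eig Γ A F L) {x0 : X} (h0 : 0 < F x0) :
    ∃ R : Finset X, (∀ r ∈ R, r ∈ nod A F x0) ∧
      ∀ x ∈ nod A F x0, ∃ r ∈ R, ∃ h ∈ St Γ (nod A F x0), h • r = x := by
  classical
  obtain ⟨S, hS⟩ := hF.supp
  -- for each `s ∈ S` a point of the domain in the same orbit, if there is one
  have hc : ∀ s : X, ∃ y : X, y ∈ nod A F x0 ∧ ((∃ z ∈ nod A F x0, ∃ γ : Γ, γ • z = s) → ∃ γ : Γ, γ • y = s) := by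
    intro s
    by_cases h : ∃ z ∈ nod A F x0, ∃ γ : Γ, γ • z = s
    · obtain ⟨z, hz, h'⟩ := h
      exact ⟨z, hz, fun _ => h'⟩
    · exact ⟨x0, self_mem x0, fun h' => absurd h' h⟩
  choose f hf1 hf2 using hc
  refine ⟨S.image f, ?_, ?_⟩
  · intro r hr
    obtain ⟨s, _, rfl⟩ := mem_image.1 hr
    exact hf1 s
  · intro x hx
    obtain ⟨γ, hγ⟩ := hS x (pos_of_mem h0 hx).ne'
    obtain ⟨γ', hγ'⟩ := hf2 (γ • x) ⟨x, hx, γ, rfl⟩
    refine ⟨f (γ • x), mem_image_of_mem _ hγ, γ⁻¹ * γ', ?_, ?_⟩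
    · apply stab_of hA hF (hf1 (γ • x))
      rw [mul_smul, hγ', inv_smul_smul]
      exact hx
    · rw [mul_smul, hγ', inv_smul_smul]

/-- eigenvalue inequality inside the nodal domain -/
lemma sub_eig (hA : Ker Γ A) (hF : Eig Γ A F L) {x0 x : X} (h0 : 0 < F x0) (hx : x ∈ nod A F x0)
    {S : Finset X} (hS2 : ∀ y ∈ nod A F x0, A x y ≠ 0 → y ∈ S) :
    L * F x ≤ ∑ y ∈ S, A x y * F y := by
  classical
  have hfin := hA.fin x
  rw [← hF.eig x]
  have e : ∑ᶠ y, A x y * F y = ∑ y ∈ hfin.toFinset ∪ S, A x y * F y := by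
    apply finsum_eq_sum_of_support_subset
    intro y hy
    rw [Function.mem_support] at hy
    have : A x y ≠ 0 := fun h => hy (by rw [h, zero_mul])
    simp only [coe_union, Set.Finite.coe_toFinset]
    exact Or.inl this
  rw [e, ← sum_sdiff (subset_union_right : S ⊆ hfin.toFinset ∪ S)]
  have : ∑ y ∈ (hfin.toFinset ∪ S) \ S, A x y * F y ≤ 0 := by
    apply sum_nonpos
    intro y hy
    rw [mem_sdiff, mem_union, Set.Finite.mem_toFinset] at hy
    have hne : A x y ≠ 0 := hy.1.resolve_right hy.2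
    have hpos : 0 < A x y := lt_of_le_of_ne (hA.nonneg x y) (Ne.symm hne)
    have hy2 : y ∉ nod A F x0 := fun h => hy.2 (hS2 y h hne)
    have : F y ≤ 0 := by
      by_contra hlt
      push Not at hlt
      exact hy2 (Relation.ReflTransGen.tail hx ⟨pos_of_mem h0 hx, hlt, hpos⟩)
    exact mul_nonpos_of_nonneg_of_nonpos hpos.le this
  linarith

/-- ground state transform -/
lemma ground (hA : Ker Γ A) (S : Finset X) (F c : X → ℝ) :
    ∑ x ∈ S, ∑ y ∈ S, A x y * (c x * F x) * (c y * F y) =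
      ∑ x ∈ S, c x ^ 2 * F x * ∑ y ∈ S, A x y * F y -
        (1 / 2) * ∑ x ∈ S, ∑ y ∈ S, A x y * F x * F y * (c x - c y) ^ 2 := by
  have e1 : ∑ x ∈ S, ∑ y ∈ S, A x y * F x * F y * c y ^ 2 =
      ∑ x ∈ S, ∑ y ∈ S, A x y * F x * F y * c x ^ 2 := by
    rw [sum_comm]
    refine sum_congr rfl fun x _ => sum_congr rfl fun y _ => ?_
    rw [hA.symm y x]; ring
  have e2 : ∑ x ∈ S, c x ^ 2 * F x * ∑ y ∈ S, A x y * F y =
      ∑ x ∈ S, ∑ y ∈ S, A x y * F x * F y * c x ^ 2 := by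
    refine sum_congr rfl fun x _ => ?_
    rw [mul_sum]
    refine sum_congr rfl fun y _ => ?_
    ring
  have e3 : ∑ x ∈ S, ∑ y ∈ S, A x y * F x * F y * (c x - c y) ^ 2 =
      ∑ x ∈ S, ∑ y ∈ S, A x y * F x * F y * c x ^ 2 + ∑ x ∈ S, ∑ y ∈ S, A x y * F x * F y * c y ^ 2 -
      2 * ∑ x ∈ S, ∑ y ∈ S, A x y * (c x * F x) * (c y * F y) := by
    rw [mul_sum, ← sum_add_distrib, ← sum_sub_distrib]
    refine sum_congr rfl fun x _ => ?_
    rw [mul_sum, ← sum_add_distrib, ← sum_sub_distrib]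
    refine sum_congr rfl fun y _ => ?_
    ring
  rw [e2, e3, e1]
  ring

end Pool.Agent.Q135.NS
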