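import Pool.Agent.Q135.NS.Main

set_option autoImplicit false

namespace Pool.Agent.Q135.NS

open Finset

variable {X Γ : Type*} [Group Γ] [MulAction Γ X]
variable {A : X → X → ℝ} {F : X → ℝ} {L N : ℝ}

/-- the quadratic form of `A` is at most `N` times the square of the norm -/
def NormLe {X : Type*} (A : X → X → ℝ) (N : ℝ) : Prop :=
  ∀ (S : Finset X) (f : X → ℝ), ∑ x ∈ S, ∑ y ∈ S, A x y * f x * f y ≤ N * ∑ x ∈ S, f x ^ 2

open Classical in
/-- isoperimetric inequality in the stabiliser of a nodal domain -/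
theorem iso (hA : Ker Γ A) (hF : Eig Γ A F L) (hN : NormLe A N) (hLN : N < L) {x0 : X}
    (h0 : 0 < F x0) :
    ∃ (T : Finset Γ) (c : ℝ), 0 < c ∧ (∀ t ∈ T, t ∈ St Γ (nod A F x0)) ∧
      ∀ K : Finset Γ, (∀ k ∈ K, k ∈ St Γ (nod A F x0)) →
        c * (K.card : ℝ) ≤ ∑ t ∈ T, (((K.image (fun k => k * t)) \ K).card : ℝ) := by
  set D : Set X := nod A F x0 with hD
  obtain ⟨R, hR1, hR⟩ := exists_reps hA hF h0
  obtain ⟨a, ha0, ha⟩ := exists_bound hA R
  have hRne : R.Nonempty := by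
    obtain ⟨r, hr, _⟩ := hR x0 (self_mem x0)
    exact ⟨r, hr⟩
  have hRc : (0 : ℝ) < R.card := by exact_mod_cast card_pos.2 hRne
  have hpos : ∀ x ∈ D, 0 < F x := fun x hx => pos_of_mem h0 hx
  -- the minimum and a maximum
  obtain ⟨r1, hr1, hmin⟩ := R.exists_min_image F hRne
  have hm0 : 0 < F r1 := hpos r1 (hR1 r1 hr1)
  obtain ⟨r2, hr2, hmax⟩ := R.exists_max_image F hRne
  have hM0 : 0 < F r2 := hpos r2 (hR1 r2 hr2)
  have hlow : ∀ x ∈ D, F r1 ≤ F x := by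
    intro x hx
    obtain ⟨r, hr, h, _, rfl⟩ := hR x hx
    rw [hF.inv]; exact hmin r hr
  have hup : ∀ x ∈ D, F x ≤ F r2 := by
    intro x hx
    obtain ⟨r, hr, h, _, rfl⟩ := hR x hx
    rw [hF.inv]; exact hmax r hr
  set w : ℝ := ∑ r ∈ R, psi hA D R r with hw
  have hw0 : 0 < w := sum_pos (fun r hr => psi_pos hA D hr) hRne
  refine ⟨T hA D R, (L - N) * (F r1 ^ 2 * w ^ 2 / R.card) / (F r2 ^ 2 * (a * (R.card : ℝ) ^ 2)),
    by have : 0 < L - N := by linarith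
       positivity, fun t ht => (mem_T.1 ht).1, ?_⟩
  intro K hK
  set c := cc hA D R K with hc
  set SK : Finset X := K.biUnion (fun k => R.image (fun r => k • r)) with hSK
  set S : Finset X := (SK ∪ SK.biUnion (fun x => (hA.fin x).toFinset)).filter (fun x => x ∈ D) with hS
  have hSD : ∀ x ∈ S, x ∈ D := fun x hx => (mem_filter.1 hx).2
  have hSKD : ∀ x ∈ SK, x ∈ D := by
    intro x hx
    rw [hSK, mem_biUnion] at hx
    obtain ⟨k, hk, hx⟩ := hx
    obtain ⟨r, hr, rfl⟩ := mem_image.1 hx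
    exact (hK k hk r).2 (hR1 r hr)
  have hSKS : SK ⊆ S := fun x hx => mem_filter.2 ⟨mem_union_left _ hx, hSKD x hx⟩
  have hczero : ∀ x, x ∉ SK → c x = 0 := by
    intro x hx
    rw [hc, cc]
    apply sum_eq_zero
    intro k hk
    by_contra hne
    apply hx
    rw [hSK, mem_biUnion]
    exact ⟨k, hk, mem_image.2 ⟨k⁻¹ • x, psi_ne hA D hne, smul_inv_smul _ _⟩⟩
  have hc0 : ∀ x, 0 ≤ c x := fun x => cc_nonneg _ _ _ _ _
  have hc1 : ∀ x ∈ S, c x ≤ 1 := fun x hx => cc_le_one hA D hK (hR x (hSD x hx))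
  -- upper bound of the quadratic form
  have q1 := hN S (fun x => c x * F x)
  rw [ground hA S F c] at q1
  -- lower bound of the main term
  have q2 : L * ∑ x ∈ S, (c x * F x) ^ 2 ≤ ∑ x ∈ S, c x ^ 2 * F x * ∑ y ∈ S, A x y * F y := by
    rw [mul_sum]
    refine sum_le_sum fun x hx => ?_
    by_cases hxK : x ∈ SK
    · have h1 : L * F x ≤ ∑ y ∈ S, A x y * F y := by
        refine sub_eig hA hF h0 (hSD x hx) (fun y hy hne => ?_)
        exact mem_filter.2 ⟨mem_union_right _ (mem_biUnion.2 ⟨x, hxK, (Set.Finite.mem_toFinset _).2 hne⟩), hy⟩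
      have h2 : 0 ≤ c x ^ 2 * F x := mul_nonneg (sq_nonneg _) (hpos x (hSD x hx)).le
      calc L * (c x * F x) ^ 2 = c x ^ 2 * F x * (L * F x) := by ring
        _ ≤ _ := mul_le_mul_of_nonneg_left h1 h2
    · rw [hczero x hxK]
      simp
  -- upper bound of the boundary term
  have q3 : ∑ x ∈ S, ∑ y ∈ S, A x y * F x * F y * (c x - c y) ^ 2 ≤
      F r2 ^ 2 * (2 * ∑ x ∈ S, ∑ y ∈ S, A x y * (c x * (1 - c y))) := by
    have e : ∑ x ∈ S, ∑ y ∈ S, A x y * ((1 - c x) * c y) =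
        ∑ x ∈ S, ∑ y ∈ S, A x y * (c x * (1 - c y)) := by
      rw [sum_comm]
      refine sum_congr rfl fun x _ => sum_congr rfl fun y _ => ?_
      rw [hA.symm y x]; ring
    have e2 : 2 * ∑ x ∈ S, ∑ y ∈ S, A x y * (c x * (1 - c y)) =
        ∑ x ∈ S, ∑ y ∈ S, A x y * (c x * (1 - c y) + (1 - c x) * c y) := by
      rw [two_mul]
      nth_rw 2 [← e]
      rw [← sum_add_distrib]
      refine sum_congr rfl fun x _ => ?_
      rw [← sum_add_distrib]
      refine sum_congr rfl fun y _ => ?_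
      ring
    rw [e2, mul_sum]
    refine sum_le_sum fun x hx => ?_
    rw [mul_sum]
    refine sum_le_sum fun y hy => ?_
    have h1 := sq_sub_le (hc0 x) (hc1 x hx) (hc0 y) (hc1 y hy)
    have h2 : F x * F y ≤ F r2 ^ 2 := by
      rw [sq]
      exact mul_le_mul (hup x (hSD x hx)) (hup y (hSD y hy)) (hpos y (hSD y hy)).le hM0.le
    have h3 : 0 ≤ A x y := hA.nonneg x y
    have h4 : 0 ≤ c x * (1 - c y) + (1 - c x) * c y := (sq_nonneg _).trans h1
    calc A x y * F x * F y * (c x - c y) ^ 2 = A x y * (F x * F y * (c x - c y) ^ 2) := by ring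
      _ ≤ A x y * (F r2 ^ 2 * (c x * (1 - c y) + (1 - c x) * c y)) := by
          refine mul_le_mul_of_nonneg_left ?_ h3
          exact mul_le_mul h2 h1 (sq_nonneg _) (by positivity)
      _ = _ := by ring
  have q4 := key2 hA D hK hR hSD ha
  rw [← hc] at q4
  -- lower bound of the norm
  have q5 : F r1 ^ 2 * w ^ 2 / R.card * (K.card : ℝ) ≤ ∑ x ∈ S, (c x * F x) ^ 2 := by
    have s1 : ∑ x ∈ SK, (F r1) ^ 2 * c x ^ 2 ≤ ∑ x ∈ S, (c x * F x) ^ 2 := by
      have s2 : ∑ x ∈ SK, (F r1) ^ 2 * c x ^ 2 ≤ ∑ x ∈ SK, (c x * F x) ^ 2 := by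
        refine sum_le_sum fun x hx => ?_
        have h1 := hlow x (hSKD x hx)
        have h2 : F r1 ^ 2 ≤ F x ^ 2 := by
          apply pow_le_pow_left₀ hm0.le h1
        nlinarith [sq_nonneg (c x)]
      exact s2.trans (sum_le_sum_of_subset_of_nonneg hSKS fun _ _ _ => sq_nonneg _)
    refine le_trans ?_ s1
    rw [← mul_sum]
    have s3 : ∑ x ∈ SK, c x = K.card * w := by
      rw [hc]
      unfold cc
      rw [sum_comm, ← nsmul_eq_mul, ← sum_const]
      refine sum_congr rfl fun k hk => ?_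
      have e1 : ∑ x ∈ SK, psi hA D R (k⁻¹ • x) =
          ∑ x ∈ R.image (fun r => k • r), psi hA D R (k⁻¹ • x) := by
        symm
        apply sum_subset
        · intro x hx
          exact mem_biUnion.2 ⟨k, hk, hx⟩
        · intro x _ hx
          by_contra hne
          exact hx (mem_image.2 ⟨k⁻¹ • x, psi_ne hA D hne, smul_inv_smul _ _⟩)
      rw [e1, sum_image (fun x _ y _ e => smul_left_cancel k e), hw]
      refine sum_congr rfl fun r _ => ?_
      rw [inv_smul_smul]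
    have s4 := sq_sum_le_card_mul_sum_sq (s := SK) (f := c)
    have s5 : (SK.card : ℝ) ≤ K.card * R.card := by
      have : SK.card ≤ K.card * R.card := by
        rw [hSK]
        refine card_biUnion_le.trans ?_
        refine (sum_le_card_nsmul K _ R.card (fun k _ => card_image_le)).trans (le_of_eq ?_)
        rw [smul_eq_mul]
      exact_mod_cast this
    rw [s3] at s4
    have hs0 : 0 ≤ ∑ x ∈ SK, c x ^ 2 := sum_nonneg fun _ _ => sq_nonneg _
    have s6 : ((K.card : ℝ) * w) ^ 2 ≤ (K.card * R.card) * ∑ x ∈ SK, c x ^ 2 :=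
      s4.trans (mul_le_mul_of_nonneg_right s5 hs0)
    rcases Nat.eq_zero_or_pos K.card with hk0 | hk0
    · rw [hk0]; push_cast; rw [mul_zero]
      positivity
    · have hk1 : (0 : ℝ) < K.card := by exact_mod_cast hk0
      have s7 : (K.card : ℝ) * w ^ 2 ≤ R.card * ∑ x ∈ SK, c x ^ 2 := by
        have : (K.card : ℝ) * (K.card * w ^ 2) ≤ K.card * (R.card * ∑ x ∈ SK, c x ^ 2) := by
          nlinarith
        exact le_of_mul_le_mul_left this hk1
      have s8 : (K.card : ℝ) * w ^ 2 / R.card ≤ ∑ x ∈ SK, c x ^ 2 := by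
        rw [div_le_iff₀ hRc]; linarith
      calc F r1 ^ 2 * w ^ 2 / R.card * (K.card : ℝ) = F r1 ^ 2 * ((K.card : ℝ) * w ^ 2 / R.card) := by
            ring
        _ ≤ _ := mul_le_mul_of_nonneg_left s8 (sq_nonneg _)
  have hLN' : 0 < L - N := by linarith
  have q6 : (L - N) * ∑ x ∈ S, (c x * F x) ^ 2 ≤
      F r2 ^ 2 * (a * (R.card : ℝ) ^ 2 * ∑ t ∈ T hA D R, (((K.image (fun k => k * t)) \ K).card : ℝ)) := by
    have : (L - N) * ∑ x ∈ S, (c x * F x) ^ 2 ≤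
        F r2 ^ 2 * ∑ x ∈ S, ∑ y ∈ S, A x y * (c x * (1 - c y)) := by nlinarith
    exact this.trans (mul_le_mul_of_nonneg_left q4 (sq_nonneg _))
  have q7 : (L - N) * (F r1 ^ 2 * w ^ 2 / R.card * (K.card : ℝ)) ≤
      F r2 ^ 2 * (a * (R.card : ℝ) ^ 2 * ∑ t ∈ T hA D R, (((K.image (fun k => k * t)) \ K).card : ℝ)) :=
    (mul_le_mul_of_nonneg_left q5 hLN'.le).trans q6
  rw [div_mul_eq_mul_div, div_le_iff₀ (by positivity)]
  calc (L - N) * (F r1 ^ 2 * w ^ 2 / R.card) * (K.card : ℝ) =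
      (L - N) * (F r1 ^ 2 * w ^ 2 / R.card * (K.card : ℝ)) := by ring
    _ ≤ _ := q7
    _ = _ := by ring

/-- bilinear bound -/
lemma bil (hA : Ker Γ A) (hN : NormLe A N) (S : Finset X) (f g : X → ℝ) :
    2 * ∑ x ∈ S, ∑ y ∈ S, A x y * f x * g y ≤ N * (∑ x ∈ S, f x ^ 2 + ∑ x ∈ S, g x ^ 2) := by
  have h1 := hN S (fun x => f x + g x)
  have h2 := hN S (fun x => |f x - g x|)
  have h3 : ∑ x ∈ S, ∑ y ∈ S, A x y * (-((f x - g x) * (f y - g y))) ≤
      ∑ x ∈ S, ∑ y ∈ S, A x y * |f x - g x| * |f y - g y| := by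
    refine sum_le_sum fun x _ => sum_le_sum fun y _ => ?_
    rw [mul_assoc, ← abs_mul]
    exact mul_le_mul_of_nonneg_left (neg_le_abs _) (hA.nonneg _ _)
  have e1 : ∑ x ∈ S, ∑ y ∈ S, A x y * g x * f y = ∑ x ∈ S, ∑ y ∈ S, A x y * f x * g y := by
    rw [sum_comm]
    refine sum_congr rfl fun x _ => sum_congr rfl fun y _ => ?_
    rw [hA.symm y x]; ring
  have e2 : ∑ x ∈ S, ∑ y ∈ S, A x y * (f x + g x) * (f y + g y) +
      ∑ x ∈ S, ∑ y ∈ S, A x y * (-((f x - g x) * (f y - g y))) =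
      4 * ∑ x ∈ S, ∑ y ∈ S, A x y * f x * g y := by
    have : (4 : ℝ) * ∑ x ∈ S, ∑ y ∈ S, A x y * f x * g y =
        2 * ∑ x ∈ S, ∑ y ∈ S, A x y * f x * g y + 2 * ∑ x ∈ S, ∑ y ∈ S, A x y * g x * f y := by
      rw [e1]; ring
    rw [this, mul_sum, mul_sum, ← sum_add_distrib, ← sum_add_distrib]
    refine sum_congr rfl fun x _ => ?_
    rw [mul_sum, mul_sum, ← sum_add_distrib, ← sum_add_distrib]
    refine sum_congr rfl fun y _ => ?_
    ring
  have e3 : ∑ x ∈ S, (f x + g x) ^ 2 + ∑ x ∈ S, |f x - g x| ^ 2 =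
      2 * (∑ x ∈ S, f x ^ 2 + ∑ x ∈ S, g x ^ 2) := by
    rw [← sum_add_distrib, ← sum_add_distrib, mul_sum]
    refine sum_congr rfl fun x _ => ?_
    rw [sq_abs]; ring
  have e4 : N * ∑ x ∈ S, (f x + g x) ^ 2 + N * ∑ x ∈ S, |f x - g x| ^ 2 =
      N * (2 * (∑ x ∈ S, f x ^ 2 + ∑ x ∈ S, g x ^ 2)) := by rw [← mul_add, e3]
  linarith

end Pool.Agent.Q135.NS
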