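import Pool.Agent.Q135.NS.Fin

set_option autoImplicit false

namespace Pool.Agent.Q135.NS

open Finset

variable {X Γ : Type*} [Group Γ] [MulAction Γ X]
variable {A : X → X → ℝ} {F : X → ℝ} {L N : ℝ}

lemma entry_le (hA : Ker Γ A) (hN : NormLe A N) (x y : X) : A x y ≤ N := by
  classical
  have h := bil hA hN {x, y} (fun z => if z = x then 1 else 0) (fun z => if z = y then 1 else 0)
  by_cases hxy : x = y
  · subst hxy
    simp only [pair_eq_singleton, sum_singleton, if_true] at h
    linarith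
  · rw [sum_pair hxy, sum_pair hxy, sum_pair hxy, sum_pair hxy, sum_pair hxy] at h
    simp only [if_true, if_neg hxy, if_neg (Ne.symm hxy)] at h
    linarith

lemma norm_pos (hA : Ker Γ A) (hF : Eig Γ A F L) (hN : NormLe A N) (hLN : N < L) {x0 : X}
    (h0 : 0 < F x0) : 0 < N := by
  by_contra hlt
  push Not at hlt
  have h1 : ∀ x y, A x y = 0 := fun x y =>
    le_antisymm ((entry_le hA hN x y).trans hlt) (hA.nonneg x y)
  have h2 := hF.eig x0
  have h3 : ∑ᶠ y, A x0 y * F y = 0 := by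
    rw [show (fun y => A x0 y * F y) = fun _ => (0 : ℝ) from funext fun y => by rw [h1, zero_mul]]
    exact finsum_zero
  rw [h3] at h2
  have h4 : L = 0 := by
    rcases mul_eq_zero.1 h2.symm with h | h
    · exact h
    · exact absurd h h0.ne'
  have h5 := entry_le hA hN x0 x0
  rw [h1] at h5
  linarith

lemma ball_sub (x0 : X) (n : ℕ) : ball A F x0 n ⊆ nod A F x0 := by
  induction n with
  | zero => intro y hy; rw [show y = x0 from hy]; exact self_mem x0
  | succ n ih =>
    intro y hy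
    rcases hy with h | ⟨z, hz, hzy⟩
    · exact ih h
    · exact Relation.ReflTransGen.tail (ih hz) hzy

lemma ball_fin (hA : Ker Γ A) (x0 : X) (n : ℕ) : (ball A F x0 n).Finite := by
  induction n with
  | zero => exact Set.finite_singleton x0
  | succ n ih =>
    refine ih.union ((ih.biUnion fun z _ => hA.fin z).subset ?_)
    rintro y ⟨z, hz, hzy⟩
    rw [Set.mem_iUnion₂]
    exact ⟨z, hz, hzy.2.2.ne'⟩

open Classical in
/-- the iterates of the kernel restricted to the nodal domain -/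
noncomputable def g (hA : Ker Γ A) (F : X → ℝ) (x0 : X) : ℕ → X → ℝ
  | 0 => fun y => if y = x0 then 1 else 0
  | n + 1 => fun y => if y ∈ nod A F x0 then
      ∑ z ∈ (ball_fin (F := F) hA x0 n).toFinset, A z y * g hA F x0 n z else 0

open Classical in
lemma g_zero (hA : Ker Γ A) (x0 y : X) : g hA F x0 0 y = if y = x0 then 1 else 0 := rfl

open Classical in
lemma g_succ (hA : Ker Γ A) (x0 : X) (n : ℕ) (y : X) : g hA F x0 (n + 1) y =
    if y ∈ nod A F x0 then
      ∑ z ∈ (ball_fin (F := F) hA x0 n).toFinset, A z y * g hA F x0 n z else 0 := rfl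

lemma g_nonneg (hA : Ker Γ A) (x0 : X) (n : ℕ) (y : X) : 0 ≤ g hA F x0 n y := by
  induction n generalizing y with
  | zero => rw [g_zero]; split_ifs <;> norm_num
  | succ n ih =>
    rw [g_succ]
    split_ifs
    · exact sum_nonneg fun z _ => mul_nonneg (hA.nonneg _ _) (ih z)
    · exact le_refl _

lemma g_supp (hA : Ker Γ A) {x0 : X} (h0 : 0 < F x0) (n : ℕ) {y : X} (hy : g hA F x0 n y ≠ 0) :
    y ∈ ball A F x0 n := by
  cases n with
  | zero =>
    rw [g_zero] at hy
    by_contra h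
    have : y ≠ x0 := fun e => h e
    rw [if_neg this] at hy
    exact hy rfl
  | succ n =>
    rw [g_succ] at hy
    by_cases hD : y ∈ nod A F x0
    · rw [if_pos hD] at hy
      obtain ⟨z, hz, hne⟩ := exists_ne_zero_of_sum_ne_zero hy
      rw [Set.Finite.mem_toFinset] at hz
      have h1 : A z y ≠ 0 := fun e => hne (by rw [e, zero_mul])
      exact Or.inr ⟨z, hz, pos_of_mem h0 (ball_sub x0 n hz), pos_of_mem h0 hD,
        lt_of_le_of_ne (hA.nonneg _ _) (Ne.symm h1)⟩
    · rw [if_neg hD] at hy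
      exact absurd rfl hy

lemma ball_mono (x0 : X) (n : ℕ) : ball A F x0 n ⊆ ball A F x0 (n + 1) := fun _ h => Or.inl h

/-- growth of nodal domains -/
theorem growth (hA : Ker Γ A) (hF : Eig Γ A F L) (hN : NormLe A N) (hLN : N < L) {x0 : X}
    (h0 : 0 < F x0) {M : ℝ} (hM : ∀ y ∈ nod A F x0, F y ≤ M) (n : ℕ) :
    L ^ (2 * n) * F x0 ^ 2 ≤ N ^ (2 * n) * M ^ 2 * ((ball A F x0 n).ncard : ℝ) := by
  classical
  have hN0 := norm_pos hA hF hN hLN h0
  have hL0 : 0 < L := hN0.trans hLN
  set B : ℕ → Finset X := fun n => (ball_fin (F := F) hA x0 n).toFinset with hB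
  have mB : ∀ n y, y ∈ B n ↔ y ∈ ball A F x0 n := fun n y => Set.Finite.mem_toFinset _
  have hsub : ∀ n, B n ⊆ B (n + 1) := fun n y hy => (mB _ _).2 (ball_mono x0 n ((mB _ _).1 hy))
  have hFpos : ∀ n, ∀ y ∈ B n, 0 < F y := fun n y hy =>
    pos_of_mem h0 (ball_sub x0 n ((mB _ _).1 hy))
  -- (ii)
  have h2 : ∀ n, L ^ n * F x0 ≤ ∑ z ∈ B n, g hA F x0 n z * F z := by
    intro n
    induction n with
    | zero =>
      have : B 0 = {x0} := by
        ext y; rw [mB]; simp [ball]
      rw [this, sum_singleton, g_zero, if_pos rfl]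
      simp
    | succ n ih =>
      have e1 : ∑ y ∈ B (n + 1), g hA F x0 (n + 1) y * F y =
          ∑ z ∈ B n, g hA F x0 n z * ∑ y ∈ B (n + 1), A z y * F y := by
        have : ∀ y ∈ B (n + 1), g hA F x0 (n + 1) y * F y =
            ∑ z ∈ B n, A z y * g hA F x0 n z * F y := by
          intro y hy
          rw [g_succ, if_pos (ball_sub x0 _ ((mB _ _).1 hy)), sum_mul]
        rw [sum_congr rfl this, sum_comm]
        refine sum_congr rfl fun z _ => ?_
        rw [mul_sum]
        refine sum_congr rfl fun y _ => ?_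
        ring
      rw [e1, pow_succ]
      have e2 : L * ∑ z ∈ B n, g hA F x0 n z * F z ≤
          ∑ z ∈ B n, g hA F x0 n z * ∑ y ∈ B (n + 1), A z y * F y := by
        rw [mul_sum]
        refine sum_le_sum fun z hz => ?_
        have hzD := ball_sub x0 n ((mB _ _).1 hz)
        have := sub_eig hA hF h0 hzD (S := B (n + 1)) (fun y hy hne => by
          rw [mB]
          exact Or.inr ⟨z, (mB _ _).1 hz, pos_of_mem h0 hzD, pos_of_mem h0 hy,
            lt_of_le_of_ne (hA.nonneg _ _) (Ne.symm hne)⟩)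
        calc L * (g hA F x0 n z * F z) = g hA F x0 n z * (L * F z) := by ring
          _ ≤ _ := mul_le_mul_of_nonneg_left this (g_nonneg hA x0 n z)
      calc L ^ n * L * F x0 = L * (L ^ n * F x0) := by ring
        _ ≤ L * ∑ z ∈ B n, g hA F x0 n z * F z := mul_le_mul_of_nonneg_left ih hL0.le
        _ ≤ _ := e2
  -- (iii)
  have h3 : ∀ n, ∑ z ∈ B n, g hA F x0 n z ^ 2 ≤ N ^ (2 * n) := by
    intro n
    induction n with
    | zero =>
      have : B 0 = {x0} := by
        ext y; rw [mB]; simp [ball]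
      rw [this, sum_singleton, g_zero, if_pos rfl]
      simp
    | succ n ih =>
      have e1 : ∑ y ∈ B (n + 1), g hA F x0 (n + 1) y ^ 2 =
          ∑ z ∈ B (n + 1), ∑ y ∈ B (n + 1), A z y * g hA F x0 n z * g hA F x0 (n + 1) y := by
        rw [sum_comm]
        refine sum_congr rfl fun y hy => ?_
        rw [sq]
        nth_rw 1 [g_succ]
        rw [if_pos (ball_sub x0 _ ((mB _ _).1 hy)), sum_mul]
        apply sum_subset (hsub n)
        intro z _ hz
        have : g hA F x0 n z = 0 := by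
          by_contra hne
          exact hz ((mB _ _).2 (g_supp hA h0 n hne))
        rw [this]; ring
      have e2 := bil hA hN (B (n + 1)) (fun z => N * g hA F x0 n z) (g hA F x0 (n + 1))
      have e3 : ∑ z ∈ B (n + 1), ∑ y ∈ B (n + 1), A z y * (N * g hA F x0 n z) * g hA F x0 (n + 1) y =
          N * ∑ y ∈ B (n + 1), g hA F x0 (n + 1) y ^ 2 := by
        rw [e1, mul_sum]
        refine sum_congr rfl fun z _ => ?_
        rw [mul_sum]
        refine sum_congr rfl fun y _ => ?_
        ring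
      have e4 : ∑ z ∈ B (n + 1), (N * g hA F x0 n z) ^ 2 = N ^ 2 * ∑ z ∈ B n, g hA F x0 n z ^ 2 := by
        rw [mul_sum]
        symm
        have : ∑ z ∈ B n, N ^ 2 * g hA F x0 n z ^ 2 = ∑ z ∈ B n, (N * g hA F x0 n z) ^ 2 :=
          sum_congr rfl fun z _ => by ring
        rw [this]
        apply sum_subset (hsub n)
        intro z _ hz
        have : g hA F x0 n z = 0 := by
          by_contra hne
          exact hz ((mB _ _).2 (g_supp hA h0 n hne))
        rw [this]; ring
      rw [e3, e4] at e2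
      have e5 : 2 * ∑ y ∈ B (n + 1), g hA F x0 (n + 1) y ^ 2 ≤
          N ^ 2 * ∑ z ∈ B n, g hA F x0 n z ^ 2 + ∑ y ∈ B (n + 1), g hA F x0 (n + 1) y ^ 2 := by
        have : N * (2 * ∑ y ∈ B (n + 1), g hA F x0 (n + 1) y ^ 2) ≤
            N * (N ^ 2 * ∑ z ∈ B n, g hA F x0 n z ^ 2 + ∑ y ∈ B (n + 1), g hA F x0 (n + 1) y ^ 2) := by
          linarith
        exact le_of_mul_le_mul_left this hN0
      have e6 : N ^ 2 * ∑ z ∈ B n, g hA F x0 n z ^ 2 ≤ N ^ 2 * N ^ (2 * n) :=
        mul_le_mul_of_nonneg_left ih (sq_nonneg _)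
      have e7 : N ^ 2 * N ^ (2 * n) = N ^ (2 * (n + 1)) := by ring
      linarith
  -- (iv)
  have hM0 : 0 < M := h0.trans_le (hM x0 (self_mem x0))
  have h4 := sum_mul_sq_le_sq_mul_sq (B n) (g hA F x0 n) F
  have h5 : ∑ z ∈ B n, F z ^ 2 ≤ M ^ 2 * ((ball A F x0 n).ncard : ℝ) := by
    have h6 : (ball A F x0 n).ncard = (B n).card := by
      rw [hB, Set.ncard_eq_toFinset_card _ (ball_fin hA x0 n)]
    rw [h6, mul_comm]
    have := sum_le_card_nsmul (B n) (fun z => F z ^ 2) (M ^ 2) (fun z hz =>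
      pow_le_pow_left₀ (hFpos n z hz).le (hM z (ball_sub x0 n ((mB _ _).1 hz))) 2)
    rwa [nsmul_eq_mul] at this
  have h7 : (L ^ n * F x0) ^ 2 ≤ (∑ z ∈ B n, g hA F x0 n z * F z) ^ 2 :=
    pow_le_pow_left₀ (by positivity) (h2 n) 2
  calc L ^ (2 * n) * F x0 ^ 2 = (L ^ n * F x0) ^ 2 := by ring
    _ ≤ (∑ z ∈ B n, g hA F x0 n z ^ 2) * ∑ z ∈ B n, F z ^ 2 := h7.trans h4
    _ ≤ N ^ (2 * n) * (M ^ 2 * ((ball A F x0 n).ncard : ℝ)) :=
        mul_le_mul (h3 n) h5 (sum_nonneg fun _ _ => sq_nonneg _) (by positivity)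
    _ = _ := by ring

end Pool.Agent.Q135.NS
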