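import Pool.Agent.Q135.NS.Core

set_option autoImplicit false

namespace Pool.Agent.Q135.NS

open Finset

variable {X Γ : Type*} [Group Γ] [MulAction Γ X]
variable {A : X → X → ℝ} {F : X → ℝ} {L N : ℝ}

lemma fin_trans (hA : Ker Γ A) (r x : X) : {h : Γ | h • r = x}.Finite := by
  by_cases hh : ∃ g : Γ, g • r = x
  · obtain ⟨g, rfl⟩ := hh
    refine ((hA.stab r).image (fun s => g * s)).subset ?_
    intro h hx
    refine ⟨g⁻¹ * h, ?_, ?_⟩
    · change (g⁻¹ * h) • r = r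
      have : h • r = g • r := hx
      rw [mul_smul, this, inv_smul_smul]
    · change g * (g⁻¹ * h) = h
      group
  · have : {h : Γ | h • r = x} = ∅ := by
      ext h
      simp only [Set.mem_setOf_eq, Set.mem_empty_iff_false, iff_false]
      exact fun e => hh ⟨h, e⟩
    rw [this]
    exact Set.finite_empty

lemma P_fin (hA : Ker Γ A) (D : Set X) (R : Finset X) (x : X) :
    {h : Γ | h ∈ St Γ D ∧ h⁻¹ • x ∈ R}.Finite := by
  refine (R.finite_toSet.biUnion (fun r _ => fin_trans hA r x)).subset ?_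
  intro h hh
  rw [Set.mem_iUnion₂]
  refine ⟨h⁻¹ • x, hh.2, ?_⟩
  change h • h⁻¹ • x = x
  rw [smul_inv_smul]

/-- the elements of the stabiliser which move a representative to `x` -/
noncomputable def P (hA : Ker Γ A) (D : Set X) (R : Finset X) (x : X) : Finset Γ :=
  (P_fin hA D R x).toFinset

lemma mem_P {hA : Ker Γ A} {D : Set X} {R : Finset X} {x : X} {h : Γ} :
    h ∈ P hA D R x ↔ h ∈ St Γ D ∧ h⁻¹ • x ∈ R := by
  rw [P, Set.Finite.mem_toFinset]; rfl

lemma P_card (hA : Ker Γ A) (D : Set X) (R : Finset X) (x : X) {g : Γ} (hg : g ∈ St Γ D) :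
    (P hA D R (g • x)).card = (P hA D R x).card := by
  symm
  refine card_bij (fun h _ => g * h) ?_ ?_ ?_
  · intro h hh
    rw [mem_P] at hh ⊢
    refine ⟨St_mul hg hh.1, ?_⟩
    rw [mul_inv_rev, mul_smul, inv_smul_smul]
    exact hh.2
  · intro a _ b _ e
    exact mul_left_cancel e
  · intro h hh
    rw [mem_P] at hh
    refine ⟨g⁻¹ * h, ?_, ?_⟩
    · rw [mem_P]
      refine ⟨St_mul (St_inv hg) hh.1, ?_⟩
      rw [mul_inv_rev, inv_inv, mul_smul]
      exact hh.2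
    · group

open Classical in
/-- the weight of a representative -/
noncomputable def psi (hA : Ker Γ A) (D : Set X) (R : Finset X) (x : X) : ℝ :=
  if x ∈ R then ((P hA D R x).card : ℝ)⁻¹ else 0

lemma psi_nonneg (hA : Ker Γ A) (D : Set X) (R : Finset X) (x : X) : 0 ≤ psi hA D R x := by
  unfold psi
  split_ifs
  · positivity
  · exact le_refl _

lemma one_mem_St (D : Set X) : (1 : Γ) ∈ St Γ D := fun z => by rw [one_smul]

lemma psi_pos (hA : Ker Γ A) (D : Set X) {R : Finset X} {x : X} (hx : x ∈ R) :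
    0 < psi hA D R x := by
  unfold psi
  rw [if_pos hx]
  have : (1 : Γ) ∈ P hA D R x := by
    rw [mem_P]
    refine ⟨one_mem_St D, ?_⟩
    rw [inv_one, one_smul]; exact hx
  have : 0 < (P hA D R x).card := card_pos.2 ⟨1, this⟩
  positivity

lemma psi_le_one (hA : Ker Γ A) (D : Set X) (R : Finset X) (x : X) : psi hA D R x ≤ 1 := by
  unfold psi
  split_ifs with hx
  · have : (1 : Γ) ∈ P hA D R x := by
      rw [mem_P]
      refine ⟨one_mem_St D, ?_⟩
      rw [inv_one, one_smul]; exact hx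
    have h1 : 1 ≤ (P hA D R x).card := card_pos.2 ⟨1, this⟩
    have h2 : (1 : ℝ) ≤ (P hA D R x).card := by exact_mod_cast h1
    exact inv_le_one_of_one_le₀ h2
  · exact zero_le_one

lemma psi_ne (hA : Ker Γ A) (D : Set X) {R : Finset X} {x : X} (hx : psi hA D R x ≠ 0) : x ∈ R := by
  unfold psi at hx
  by_contra h
  rw [if_neg h] at hx
  exact hx rfl

/-- the weights of the translates add up to one -/
lemma psi_sum (hA : Ker Γ A) (D : Set X) {R : Finset X} {x : X}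
    (hx : ∃ r ∈ R, ∃ h ∈ St Γ D, h • r = x) :
    ∑ h ∈ P hA D R x, psi hA D R (h⁻¹ • x) = 1 := by
  have e : ∀ h ∈ P hA D R x, psi hA D R (h⁻¹ • x) = ((P hA D R x).card : ℝ)⁻¹ := by
    intro h hh
    rw [mem_P] at hh
    unfold psi
    rw [if_pos hh.2, P_card hA D R x (St_inv hh.1)]
  rw [sum_congr rfl e, sum_const, nsmul_eq_mul]
  obtain ⟨r, hr, h, hh, rfl⟩ := hx
  have : h ∈ P hA D R (h • r) := by
    rw [mem_P]
    refine ⟨hh, ?_⟩
    rw [inv_smul_smul]; exact hr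
  have : 0 < (P hA D R (h • r)).card := card_pos.2 ⟨h, this⟩
  have : ((P hA D R (h • r)).card : ℝ) ≠ 0 := by positivity
  exact mul_inv_cancel₀ this

/-- the smoothed indicator function of `K` -/
noncomputable def cc (hA : Ker Γ A) (D : Set X) (R : Finset X) (K : Finset Γ) (x : X) : ℝ :=
  ∑ k ∈ K, psi hA D R (k⁻¹ • x)

lemma cc_nonneg (hA : Ker Γ A) (D : Set X) (R : Finset X) (K : Finset Γ) (x : X) :
    0 ≤ cc hA D R K x := sum_nonneg fun _ _ => psi_nonneg _ _ _ _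

open Classical in
lemma cc_eq (hA : Ker Γ A) (D : Set X) (R : Finset X) {K : Finset Γ} (hK : ∀ k ∈ K, k ∈ St Γ D)
    (x : X) : cc hA D R K x = ∑ h ∈ P hA D R x ∩ K, psi hA D R (h⁻¹ • x) := by
  unfold cc
  symm
  apply sum_subset inter_subset_right
  intro k hk hk2
  by_contra hne
  exact hk2 (mem_inter.2 ⟨mem_P.2 ⟨hK k hk, psi_ne hA D hne⟩, hk⟩)

open Classical in
lemma one_sub_cc (hA : Ker Γ A) (D : Set X) {R : Finset X} {K : Finset Γ}
    (hK : ∀ k ∈ K, k ∈ St Γ D) {x : X} (hx : ∃ r ∈ R, ∃ h ∈ St Γ D, h • r = x) :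
    1 - cc hA D R K x = ∑ h ∈ P hA D R x \ K, psi hA D R (h⁻¹ • x) := by
  have h1 := psi_sum hA D hx
  rw [← sum_inter_add_sum_sdiff (P hA D R x) K] at h1
  rw [cc_eq hA D R hK x]
  linarith

lemma cc_le_one (hA : Ker Γ A) (D : Set X) {R : Finset X} {K : Finset Γ}
    (hK : ∀ k ∈ K, k ∈ St Γ D) {x : X} (hx : ∃ r ∈ R, ∃ h ∈ St Γ D, h • r = x) :
    cc hA D R K x ≤ 1 := by
  classical
  have := one_sub_cc hA D hK hx
  have h2 : 0 ≤ ∑ h ∈ P hA D R x \ K, psi hA D R (h⁻¹ • x) :=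
    sum_nonneg fun _ _ => psi_nonneg _ _ _ _
  linarith

/-- `|a - b| ≤ a (1 - b) + (1 - a) b` on `[0, 1]` -/
lemma sq_sub_le {a b : ℝ} (ha : 0 ≤ a) (ha1 : a ≤ 1) (hb : 0 ≤ b) (hb1 : b ≤ 1) :
    (a - b) ^ 2 ≤ a * (1 - b) + (1 - a) * b := by
  nlinarith [mul_nonneg ha (sub_nonneg.2 ha1), mul_nonneg hb (sub_nonneg.2 hb1)]

end Pool.Agent.Q135.NS
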