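import Pool.Agent.Q135.NS.Iso

set_option autoImplicit false

namespace Pool.Agent.Q135.NS

open Finset

variable {X Γ : Type*} [Group Γ] [MulAction Γ X]
variable {A : X → X → ℝ} {F : X → ℝ} {L N : ℝ}

lemma T_fin (hA : Ker Γ A) (D : Set X) (R : Finset X) :
    {t : Γ | t ∈ St Γ D ∧ ∃ r ∈ R, ∃ r' ∈ R, A r (t • r') ≠ 0}.Finite := by
  have h1 : (⋃ r ∈ (R : Set X), ⋃ r' ∈ (R : Set X), ⋃ y ∈ {y | A r y ≠ 0},
      {t : Γ | t • r' = y}).Finite := by
    refine R.finite_toSet.biUnion fun r _ => R.finite_toSet.biUnion fun r' _ => ?_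
    exact (hA.fin r).biUnion fun y _ => fin_trans hA r' y
  refine h1.subset ?_
  rintro t ⟨_, r, hr, r', hr', hne⟩
  simp only [Set.mem_iUnion]
  exact ⟨r, hr, r', hr', t • r', hne, rfl⟩

/-- the finite set of steps -/
noncomputable def T (hA : Ker Γ A) (D : Set X) (R : Finset X) : Finset Γ := (T_fin hA D R).toFinset

lemma mem_T {hA : Ker Γ A} {D : Set X} {R : Finset X} {t : Γ} :
    t ∈ T hA D R ↔ t ∈ St Γ D ∧ ∃ r ∈ R, ∃ r' ∈ R, A r (t • r') ≠ 0 := by
  rw [T, Set.Finite.mem_toFinset]; rfl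

lemma exists_bound (hA : Ker Γ A) (R : Finset X) : ∃ a : ℝ, 0 < a ∧ ∀ r ∈ R, ∀ y, A r y ≤ a := by
  classical
  refine ⟨1 + ∑ r ∈ R, ∑ y ∈ (hA.fin r).toFinset, A r y, ?_, ?_⟩
  · have : 0 ≤ ∑ r ∈ R, ∑ y ∈ (hA.fin r).toFinset, A r y :=
      sum_nonneg fun _ _ => sum_nonneg fun _ _ => hA.nonneg _ _
    linarith
  · intro r hr y
    have h0 : 0 ≤ ∑ r ∈ R, ∑ y ∈ (hA.fin r).toFinset, A r y :=
      sum_nonneg fun _ _ => sum_nonneg fun _ _ => hA.nonneg _ _
    by_cases hy : A r y = 0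
    · rw [hy]; linarith
    · have h1 : A r y ≤ ∑ y ∈ (hA.fin r).toFinset, A r y :=
        single_le_sum (f := fun y => A r y) (fun _ _ => hA.nonneg _ _)
          ((Set.Finite.mem_toFinset _).2 hy)
      have h2 : ∑ y ∈ (hA.fin r).toFinset, A r y ≤ ∑ r ∈ R, ∑ y ∈ (hA.fin r).toFinset, A r y :=
        single_le_sum (f := fun r => ∑ y ∈ (hA.fin r).toFinset, A r y)
          (fun _ _ => sum_nonneg fun _ _ => hA.nonneg _ _) hr
      linarith

open Classical in
/-- the key estimate for one `k` and one representative -/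
lemma key1 (hA : Ker Γ A) (D : Set X) {R : Finset X} {K : Finset Γ} (hK : ∀ k ∈ K, k ∈ St Γ D)
    (hR : ∀ x ∈ D, ∃ r ∈ R, ∃ h ∈ St Γ D, h • r = x)
    {S : Finset X} (hS : ∀ x ∈ S, x ∈ D) {k : Γ} (hk : k ∈ K) {r : X} (hr : r ∈ R) :
    ∑ y ∈ S, A (k • r) y * (1 - cc hA D R K y) ≤
      ∑ p ∈ ((T hA D R).filter (fun t => k * t ∉ K)) ×ˢ R, A r (p.1 • p.2) := by
  set U : Finset (Γ × X) := ((T hA D R).filter (fun t => k * t ∉ K)) ×ˢ R with hU
  have h1 : ∑ p ∈ U.filter (fun p => (k * p.1) • p.2 ∈ S), A r (p.1 • p.2) ≤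
      ∑ p ∈ U, A r (p.1 • p.2) :=
    sum_le_sum_of_subset_of_nonneg (filter_subset _ _) fun _ _ _ => hA.nonneg _ _
  refine le_trans ?_ h1
  rw [← sum_fiberwise_of_maps_to (g := fun p : Γ × X => (k * p.1) • p.2) (t := S)
    (fun p hp => (mem_filter.1 hp).2)]
  refine sum_le_sum fun y hy => ?_
  have h2 : ∑ p ∈ (U.filter (fun p => (k * p.1) • p.2 ∈ S)).filter (fun p => (k * p.1) • p.2 = y),
      A r (p.1 • p.2) =
      A (k • r) y * (((U.filter (fun p => (k * p.1) • p.2 ∈ S)).filter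
        (fun p => (k * p.1) • p.2 = y)).card : ℝ) := by
    rw [sum_congr rfl (g := fun _ => A (k • r) y), sum_const, nsmul_eq_mul, mul_comm]
    intro p hp
    have e := (mem_filter.1 hp).2
    rw [← e, mul_smul, hA.inv]
  rw [h2]
  by_cases h0 : A (k • r) y = 0
  · rw [h0, zero_mul, zero_mul]
  refine mul_le_mul_of_nonneg_left ?_ (hA.nonneg _ _)
  rw [one_sub_cc hA D hK (hR y (hS y hy))]
  have h3 : ∑ h ∈ P hA D R y \ K, psi hA D R (h⁻¹ • y) ≤ ((P hA D R y \ K).card : ℝ) := by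
    have := sum_le_card_nsmul (P hA D R y \ K) (fun h => psi hA D R (h⁻¹ • y)) 1
      (fun h _ => psi_le_one _ _ _ _)
    rwa [nsmul_eq_mul, mul_one] at this
  refine h3.trans ?_
  have h4 : (P hA D R y \ K).card ≤ ((U.filter (fun p => (k * p.1) • p.2 ∈ S)).filter
        (fun p => (k * p.1) • p.2 = y)).card := by
    refine card_le_card_of_injOn (fun h => (k⁻¹ * h, h⁻¹ • y)) ?_ ?_
    · intro h hh
      have hh' : h ∈ P hA D R y \ K := by exact_mod_cast hh
      rw [mem_sdiff, mem_P] at hh'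
      obtain ⟨⟨h5, h6⟩, h7⟩ := hh'
      have e1 : (k * (k⁻¹ * h)) • (h⁻¹ • y) = y := by
        rw [mul_inv_cancel_left, smul_inv_smul]
      have e2 : (k⁻¹ * h) • (h⁻¹ • y) = k⁻¹ • y := by
        rw [mul_smul, smul_inv_smul]
      rw [mem_coe, mem_filter, mem_filter, hU, mem_product, mem_filter, mem_T]
      refine ⟨⟨⟨⟨⟨St_mul (St_inv (hK k hk)) h5, r, hr, h⁻¹ • y, h6, ?_⟩, ?_⟩, h6⟩, ?_⟩, e1⟩
      · change A r ((k⁻¹ * h) • (h⁻¹ • y)) ≠ 0
        rw [e2]
        intro e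
        apply h0
        rw [← hA.inv (k⁻¹) (k • r) y, inv_smul_smul]
        exact e
      · change k * (k⁻¹ * h) ∉ K
        rw [mul_inv_cancel_left]
        exact h7
      · change (k * (k⁻¹ * h)) • (h⁻¹ • y) ∈ S
        rw [e1]; exact hy
    · intro a _ b _ e
      have := congrArg Prod.fst e
      exact mul_left_cancel this
  exact_mod_cast h4

open Classical in
/-- the key estimate -/
lemma key2 (hA : Ker Γ A) (D : Set X) {R : Finset X} {K : Finset Γ} (hK : ∀ k ∈ K, k ∈ St Γ D)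
    (hR : ∀ x ∈ D, ∃ r ∈ R, ∃ h ∈ St Γ D, h • r = x)
    {S : Finset X} (hS : ∀ x ∈ S, x ∈ D) {a : ℝ} (ha : ∀ r ∈ R, ∀ y, A r y ≤ a) :
    ∑ x ∈ S, ∑ y ∈ S, A x y * (cc hA D R K x * (1 - cc hA D R K y)) ≤
      a * (R.card : ℝ) ^ 2 * ∑ t ∈ T hA D R, (((K.image (fun k => k * t)) \ K).card : ℝ) := by
  have e1 : ∑ x ∈ S, ∑ y ∈ S, A x y * (cc hA D R K x * (1 - cc hA D R K y)) =
      ∑ k ∈ K, ∑ x ∈ S, psi hA D R (k⁻¹ • x) * ∑ y ∈ S, A x y * (1 - cc hA D R K y) := by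
    rw [sum_comm]
    rw [sum_comm]
    rw [sum_comm (s := K)]
    refine sum_congr rfl fun x _ => ?_
    rw [← sum_mul, mul_sum]
    refine sum_congr rfl fun y _ => ?_
    change A x y * (cc hA D R K x * (1 - cc hA D R K y)) =
      cc hA D R K x * (A x y * (1 - cc hA D R K y))
    ring
  rw [e1]
  have hc1 : ∀ y ∈ S, 0 ≤ 1 - cc hA D R K y := fun y hy => by
    have := cc_le_one hA D hK (hR y (hS y hy)); linarith
  -- the bound for one `k`
  have h1 : ∀ k ∈ K, ∑ x ∈ S, psi hA D R (k⁻¹ • x) * ∑ y ∈ S, A x y * (1 - cc hA D R K y) ≤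
      a * (R.card : ℝ) ^ 2 * (((T hA D R).filter (fun t => k * t ∉ K)).card : ℝ) := by
    intro k hk
    have h2 : ∑ x ∈ S, psi hA D R (k⁻¹ • x) * ∑ y ∈ S, A x y * (1 - cc hA D R K y) ≤
        ∑ r ∈ R, ∑ y ∈ S, A (k • r) y * (1 - cc hA D R K y) := by
      have h3 : ∑ x ∈ S, psi hA D R (k⁻¹ • x) * ∑ y ∈ S, A x y * (1 - cc hA D R K y) ≤
          ∑ x ∈ R.image (fun r => k • r), ∑ y ∈ S, A x y * (1 - cc hA D R K y) := by
        have h4 : ∑ x ∈ S, psi hA D R (k⁻¹ • x) * ∑ y ∈ S, A x y * (1 - cc hA D R K y) =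
            ∑ x ∈ S.filter (fun x => k⁻¹ • x ∈ R),
              psi hA D R (k⁻¹ • x) * ∑ y ∈ S, A x y * (1 - cc hA D R K y) := by
          symm
          apply sum_subset (filter_subset _ _)
          intro x hx hx2
          have : psi hA D R (k⁻¹ • x) = 0 := by
            by_contra hne
            exact hx2 (mem_filter.2 ⟨hx, psi_ne hA D hne⟩)
          rw [this, zero_mul]
        rw [h4]
        have h5 : ∑ x ∈ S.filter (fun x => k⁻¹ • x ∈ R),
              psi hA D R (k⁻¹ • x) * ∑ y ∈ S, A x y * (1 - cc hA D R K y) ≤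
            ∑ x ∈ S.filter (fun x => k⁻¹ • x ∈ R), ∑ y ∈ S, A x y * (1 - cc hA D R K y) := by
          refine sum_le_sum fun x _ => ?_
          have h6 : 0 ≤ ∑ y ∈ S, A x y * (1 - cc hA D R K y) :=
            sum_nonneg fun y hy => mul_nonneg (hA.nonneg _ _) (hc1 y hy)
          have := mul_le_mul_of_nonneg_right (psi_le_one hA D R (k⁻¹ • x)) h6
          rwa [one_mul] at this
        refine h5.trans ?_
        apply sum_le_sum_of_subset_of_nonneg
        · intro x hx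
          rw [mem_image]
          exact ⟨k⁻¹ • x, (mem_filter.1 hx).2, smul_inv_smul _ _⟩
        · intro x _ _
          exact sum_nonneg fun y hy => mul_nonneg (hA.nonneg _ _) (hc1 y hy)
      refine h3.trans (le_of_eq ?_)
      rw [sum_image]
      intro x _ y _ e
      exact smul_left_cancel k e
    refine h2.trans ?_
    have h7 : ∀ r ∈ R, ∑ y ∈ S, A (k • r) y * (1 - cc hA D R K y) ≤
        a * (R.card : ℝ) * (((T hA D R).filter (fun t => k * t ∉ K)).card : ℝ) := by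
      intro r hr
      refine (key1 hA D hK hR hS hk hr).trans ?_
      have := sum_le_card_nsmul (((T hA D R).filter (fun t => k * t ∉ K)) ×ˢ R)
        (fun p => A r (p.1 • p.2)) a (fun p _ => ha r hr _)
      refine this.trans (le_of_eq ?_)
      rw [nsmul_eq_mul, card_product]
      push_cast
      ring
    refine (sum_le_sum h7).trans (le_of_eq ?_)
    rw [sum_const, nsmul_eq_mul]
    ring
  refine (sum_le_sum h1).trans (le_of_eq ?_)
  rw [← mul_sum]
  congr 1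
  have e2 : ∀ k : Γ, (((T hA D R).filter (fun t => k * t ∉ K)).card : ℝ) =
      ∑ t ∈ T hA D R, if k * t ∉ K then (1 : ℝ) else 0 := by
    intro k
    rw [card_filter]
    push_cast
    rfl
  rw [sum_congr rfl fun k _ => e2 k, sum_comm]
  refine sum_congr rfl fun t _ => ?_
  have e3 : (K.image (fun k => k * t)) \ K = (K.filter (fun k => k * t ∉ K)).image (fun k => k * t) := by
    ext g
    simp only [mem_sdiff, mem_image, mem_filter]
    constructor
    · rintro ⟨⟨k, hk, rfl⟩, hg⟩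
      exact ⟨k, ⟨hk, hg⟩, rfl⟩
    · rintro ⟨k, ⟨hk, hg⟩, rfl⟩
      exact ⟨⟨k, hk, rfl⟩, hg⟩
  rw [e3, card_image_of_injective _ (mul_left_injective t), card_filter]
  push_cast
  rfl

end Pool.Agent.Q135.NS
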